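import Pool.Agent.helper78.WB.SpecIII

set_option autoImplicit false

namespace Pool.Agent.WB

namespace Res22

open MvPolynomial

/-- homogenisation in the variables `0` (the variable) and `1` -/
noncomputable def h3 (u : Polynomial ℤ) (n : ℕ) : MvPolynomial (Fin 3) ℤ :=
  rename Fin.castSucc (u.homogenize n)

theorem h3_zero (n : ℕ) : h3 0 n = 0 := by simp [h3]

theorem h3_add (u v : Polynomial ℤ) (n : ℕ) : h3 (u + v) n = h3 u n + h3 v n := by
  simp [h3]

theorem h3_mul (u v : Polynomial ℤ) {m n : ℕ} (hm : u.natDegree ≤ m) (hn : v.natDegree ≤ n) :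
    h3 (u * v) (m + n) = h3 u m * h3 v n := by
  rw [h3, Polynomial.homogenize_mul _ _ hm hn, map_mul, h3, h3]

theorem h3_eq_zero {u : Polynomial ℤ} {n : ℕ} (hn : u.natDegree ≤ n) (h : h3 u n = 0) : u = 0 := by
  apply Polynomial.eq_zero_of_homogenize_eq_zero hn
  apply rename_injective (Fin.castSucc : Fin 2 → Fin 3) (Fin.castSucc_injective 2)
  rw [map_zero]
  exact h

theorem h3_hom (u : Polynomial ℤ) (n : ℕ) : (h3 u n).IsHomogeneous n :=
  (Polynomial.isHomogeneous_homogenize u).rename_isHomogeneous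

theorem h3_eval (u : Polynomial ℤ) (n : ℕ) (ζ : V3) :
    eval ζ (h3 u n) = eval ![ζ 0, ζ 1] (u.homogenize n) := by
  rw [h3, eval_rename]
  congr 1
  congr 1
  funext i
  fin_cases i <;> rfl

theorem coeff_h3 (u : Polynomial ℤ) (n : ℕ) (μ : Fin 3 →₀ ℕ) :
    coeff μ (h3 u n) = if μ 2 = 0 ∧ μ 0 + μ 1 = n then u.coeff (μ 0) else 0 := by
  by_cases h2 : μ 2 = 0
  · obtain ⟨ν, hν⟩ : ∃ ν : Fin 2 →₀ ℕ, ν = Finsupp.equivFunOnFinite.symm ![μ 0, μ 1] := ⟨_, rfl⟩
    have h0 : ν 0 = μ 0 := by rw [hν]; rfl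
    have h1 : ν 1 = μ 1 := by rw [hν]; rfl
    have hμ : μ = ν.mapDomain Fin.castSucc := by
      ext i
      fin_cases i
      · change μ 0 = (Finsupp.mapDomain Fin.castSucc ν) (Fin.castSucc 0)
        rw [Finsupp.mapDomain_apply (Fin.castSucc_injective 2), h0]
      · change μ 1 = (Finsupp.mapDomain Fin.castSucc ν) (Fin.castSucc 1)
        rw [Finsupp.mapDomain_apply (Fin.castSucc_injective 2), h1]
      · change μ 2 = (Finsupp.mapDomain Fin.castSucc ν) 2
        rw [Finsupp.mapDomain_of_notMem_range, h2]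
        rintro ⟨j, hj⟩
        fin_cases j <;> simp [Fin.ext_iff] at hj
    have hc : coeff μ (h3 u n) = coeff ν (u.homogenize n) := by
      rw [h3]
      nth_rewrite 1 [hμ]
      exact coeff_rename_mapDomain _ (Fin.castSucc_injective 2) _ _
    rw [hc, Polynomial.coeff_homogenize, h0, h1]
    simp [h2]
  · rw [if_neg (fun h => h2 h.1), h3]
    apply coeff_rename_eq_zero
    intro ν hν
    exfalso
    apply h2
    rw [← hν, Finsupp.mapDomain_of_notMem_range]
    rintro ⟨j, hj⟩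
    fin_cases j <;> simp [Fin.ext_iff] at hj

/-- the exponent `(k, l, m)` -/
noncomputable def f3 (k l m : ℕ) : Fin 3 →₀ ℕ := Finsupp.equivFunOnFinite.symm ![k, l, m]

theorem f3_0 (k l m : ℕ) : f3 k l m 0 = k := rfl
theorem f3_1 (k l m : ℕ) : f3 k l m 1 = l := rfl
theorem f3_2 (k l m : ℕ) : f3 k l m 2 = m := rfl

theorem eq_f3 (μ : Fin 3 →₀ ℕ) : μ = f3 (μ 0) (μ 1) (μ 2) := by
  ext i
  fin_cases i <;> rfl

/-- the coefficients of `p` at `w ^ m`, total degree `n + m` -/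
noncomputable def cf (p : MvPolynomial (Fin 3) ℤ) (n m : ℕ) : Polynomial ℤ :=
  ∑ k ∈ Finset.range (n + 1), Polynomial.monomial k (coeff (f3 k (n - k) m) p)

theorem cf_coeff (p : MvPolynomial (Fin 3) ℤ) (n m k : ℕ) :
    (cf p n m).coeff k = if k ≤ n then coeff (f3 k (n - k) m) p else 0 := by
  rw [cf, Polynomial.finsetSum_coeff]
  simp only [Polynomial.coeff_monomial]
  rw [Finset.sum_ite_eq']
  simp

theorem cf_deg (p : MvPolynomial (Fin 3) ℤ) (n m : ℕ) : (cf p n m).natDegree ≤ n := by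
  rw [Polynomial.natDegree_le_iff_coeff_eq_zero]
  intro k hk
  rw [cf_coeff, if_neg (by omega)]

theorem decomp (d : ℕ) (p : MvPolynomial (Fin 3) ℤ) (hp : p.IsHomogeneous d) (hd : 1 ≤ d)
    (h2 : degreeOf 2 p ≤ 1) : p = h3 (cf p d 0) d + X 2 * h3 (cf p (d - 1) 1) (d - 1) := by
  classical
  have hc : ∀ μ : Fin 3 →₀ ℕ, coeff μ p ≠ 0 → μ 0 + μ 1 + μ 2 = d ∧ μ 2 ≤ 1 := by
    intro μ hμ
    constructor
    · have h := hp hμ
      rw [Finsupp.weight_apply, Finsupp.sum_fintype] at h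
      · simpa [Fin.sum_univ_three] using h
      · intro i; simp
    · exact (degreeOf_le_iff.1 h2) μ (mem_support_iff.2 hμ)
  ext μ
  rw [coeff_add, coeff_h3, coeff_X_mul', coeff_h3]
  have e0 : (μ - Finsupp.single (2 : Fin 3) (1 : ℕ) : Fin 3 →₀ ℕ) 0 = μ 0 := by simp [Finsupp.tsub_apply]
  have e1 : (μ - Finsupp.single (2 : Fin 3) (1 : ℕ) : Fin 3 →₀ ℕ) 1 = μ 1 := by simp [Finsupp.tsub_apply]
  have e2 : (μ - Finsupp.single (2 : Fin 3) (1 : ℕ) : Fin 3 →₀ ℕ) 2 = μ 2 - 1 := by simp [Finsupp.tsub_apply]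
  rw [e0, e1, e2, cf_coeff, cf_coeff]
  rcases Nat.lt_trichotomy (μ 2) 1 with h | h | h
  · have h0 : μ 2 = 0 := by omega
    rw [if_neg (show ¬ (2 : Fin 3) ∈ μ.support by simp [h0]), add_zero]
    by_cases hs : μ 0 + μ 1 = d
    · rw [if_pos ⟨h0, hs⟩, if_pos (by omega)]
      congr 1
      rw [eq_f3 μ]
      simp only [f3_0, f3_1, f3_2]
      congr 1
      omega
    · rw [if_neg (fun h => hs h.2)]
      by_contra hne
      exact hs (by have := (hc μ hne).1; omega)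
  · rw [if_neg (fun hh => by omega), zero_add, if_pos (show (2 : Fin 3) ∈ μ.support by simp [h])]
    by_cases hs : μ 0 + μ 1 = d - 1
    · rw [if_pos ⟨by omega, hs⟩, if_pos (by omega)]
      congr 1
      rw [eq_f3 μ]
      simp only [f3_0, f3_1, f3_2]
      rw [h]
      congr 1
      omega
    · rw [if_neg (fun hh => hs hh.2)]
      by_contra hne
      exact hs (by have := (hc μ hne).1; omega)
  · rw [if_neg (fun hh => by omega), zero_add, if_pos (show (2 : Fin 3) ∈ μ.support by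
      rw [Finsupp.mem_support_iff]; omega), if_neg (fun hh => by omega)]
    by_contra hne
    have := (hc μ hne).2
    omega

theorem pderiv_h3 (u : Polynomial ℤ) (n : ℕ) : pderiv 2 (h3 u n) = 0 := by
  apply pderiv_eq_zero_of_notMem_vars
  intro h
  have := vars_rename (Fin.castSucc : Fin 2 → Fin 3) (u.homogenize n) h
  rw [Finset.mem_image] at this
  obtain ⟨j, -, hj⟩ := this
  fin_cases j <;> simp [Fin.ext_iff] at hj

theorem X_mul_eq {q : MvPolynomial (Fin 3) ℤ} {v : Polynomial ℤ} {n : ℕ}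
    (h : X 2 * q = h3 v n) : h3 v n = 0 := by
  classical
  ext μ
  rw [coeff_zero]
  by_cases h2 : μ 2 = 0
  · rw [← h, coeff_X_mul', if_neg (by simp [h2])]
  · rw [coeff_h3, if_neg (fun hh => h2 hh.1)]

theorem not_dvd_of_deg {p q : MvPolynomial (Fin 3) ℤ} {d e : ℕ} (hp : p.IsHomogeneous d)
    (hp0 : p ≠ 0) (hq : q.IsHomogeneous e) (hde : e < d) (h : p ∣ q) : q = 0 := by
  by_contra hq0
  obtain ⟨c, rfl⟩ := h
  have hc0 : c ≠ 0 := right_ne_zero_of_mul hq0
  have h1 := hq.totalDegree hq0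
  rw [totalDegree_mul_of_isDomain hp0 hc0, hp.totalDegree hp0] at h1
  omega

theorem inj (d : ℕ) (p : MvPolynomial (Fin 3) ℤ) (hirr : Irreducible p) (hp : p.IsHomogeneous d)
    (hd : 2 ≤ d) (h2 : degreeOf 2 p = 1) (u v : Polynomial ℤ) (hu : u.natDegree ≤ d - 2)
    (hv : v.natDegree ≤ d - 1) (h : cf p d 0 * u + cf p (d - 1) 1 * v = 0) : u = 0 ∧ v = 0 := by
  classical
  have hdec := decomp d p hp (by omega) (le_of_eq h2)
  have hB0 : h3 (cf p (d - 1) 1) (d - 1) ≠ 0 := by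
    intro hB
    have hle : degreeOf 2 p ≤ 0 := by
      rw [degreeOf_le_iff]
      intro μ hμ
      by_contra hcon
      apply mem_support_iff.1 hμ
      rw [hdec, hB, mul_zero, add_zero, coeff_h3, if_neg (fun hh => hcon (le_of_eq hh.1))]
    omega
  have e1 : h3 (cf p d 0 * u) (2 * d - 2) = h3 (cf p d 0) d * h3 u (d - 2) := by
    rw [← h3_mul _ _ (cf_deg p d 0) hu]
    congr 1
    omega
  have e2 : h3 (cf p (d - 1) 1 * v) (2 * d - 2) = h3 (cf p (d - 1) 1) (d - 1) * h3 v (d - 1) := by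
    rw [← h3_mul _ _ (cf_deg p (d - 1) 1) hv]
    congr 1
    omega
  have e3 : h3 (cf p d 0) d * h3 u (d - 2) + h3 (cf p (d - 1) 1) (d - 1) * h3 v (d - 1) = 0 := by
    rw [← e1, ← e2, ← h3_add, h, h3_zero]
  have e4 : p * h3 u (d - 2) =
      h3 (cf p (d - 1) 1) (d - 1) * (X 2 * h3 u (d - 2) - h3 v (d - 1)) := by
    nth_rewrite 1 [hdec]
    linear_combination e3
  have hprime : Prime p := hirr.prime
  have e5 : X 2 * h3 u (d - 2) - h3 v (d - 1) = 0 := by
    rcases hprime.dvd_or_dvd (Dvd.intro _ e4) with h5 | h5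
    · exact absurd (not_dvd_of_deg hp hirr.ne_zero (h3_hom _ _) (by omega) h5) hB0
    · apply not_dvd_of_deg hp hirr.ne_zero (e := d - 1) _ (by omega) h5
      apply IsHomogeneous.sub _ (h3_hom _ _)
      have := (isHomogeneous_X ℤ (2 : Fin 3)).mul (h3_hom u (d - 2))
      rwa [show 1 + (d - 2) = d - 1 by omega] at this
  have e6 : h3 v (d - 1) = 0 := X_mul_eq (sub_eq_zero.1 e5)
  have e7 : h3 u (d - 2) = 0 := by
    rw [e6, sub_zero] at e5
    exact (mul_eq_zero.1 e5).resolve_left (X_ne_zero 2)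
  exact ⟨h3_eq_zero hu e7, h3_eq_zero hv e6⟩

open Polynomial in
theorem res_ne (d : ℕ) (p : MvPolynomial (Fin 3) ℤ) (hirr : Irreducible p)
    (hp : p.IsHomogeneous d) (hd : 2 ≤ d) (h2 : degreeOf 2 p = 1) :
    Polynomial.resultant (cf p d 0) (cf p (d - 1) 1) d (d - 1) ≠ 0 := by
  classical
  intro hR
  let b₁ := ((degreeLT.basis ℤ d).prod (degreeLT.basis ℤ (d - 1))).reindex finSumFinEquiv
  let b₂ := degreeLT.basis ℤ (d + (d - 1))
  have hM := toMatrix_sylvesterMap' (cf p d 0) (cf p (d - 1) 1) (cf_deg p d 0) (cf_deg p (d - 1) 1)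
  rw [Polynomial.resultant, ← hM] at hR
  obtain ⟨w, hw0, hw⟩ := Matrix.exists_mulVec_eq_zero_iff.2 hR
  obtain ⟨x, hx⟩ : ∃ x, x = b₁.equivFun.symm w := ⟨_, rfl⟩
  have hx' : b₁.repr x = w := by
    rw [hx]
    exact b₁.equivFun.apply_symm_apply w
  have h0 := LinearMap.toMatrix_mulVec_repr b₁ b₂
    (sylvesterMap (cf p d 0) (cf p (d - 1) 1) (cf_deg p d 0) (cf_deg p (d - 1) 1)) x
  rw [hx'] at h0
  have h1 : sylvesterMap (cf p d 0) (cf p (d - 1) 1) (cf_deg p d 0) (cf_deg p (d - 1) 1) x = 0 := by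
    apply b₂.repr.injective
    rw [map_zero]
    apply DFunLike.coe_injective
    rw [← h0]
    exact hw
  have h3' := congrArg (fun z : ℤ[X]_(d + (d - 1)) => (z : ℤ[X])) h1
  simp only [sylvesterMap_apply_coe, ZeroMemClass.coe_zero] at h3'
  have hq : ((x.2 : ℤ[X]_(d - 1)) : ℤ[X]).natDegree ≤ d - 2 := by
    have := Polynomial.mem_degreeLT.1 x.2.2
    by_cases h0 : ((x.2 : ℤ[X]_(d - 1)) : ℤ[X]) = 0
    · rw [h0]; simp
    · have := (Polynomial.natDegree_lt_iff_degree_lt h0).2 this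
      omega
  have hpd : ((x.1 : ℤ[X]_d) : ℤ[X]).natDegree ≤ d - 1 := by
    have := Polynomial.mem_degreeLT.1 x.1.2
    by_cases h0 : ((x.1 : ℤ[X]_d) : ℤ[X]) = 0
    · rw [h0]; simp
    · have := (Polynomial.natDegree_lt_iff_degree_lt h0).2 this
      omega
  obtain ⟨ha, hb⟩ := inj d p hirr hp hd h2 _ _ hq hpd h3'
  apply hw0
  rw [← hx']
  have : x = 0 := by
    apply Prod.ext
    · exact Subtype.ext hb
    · exact Subtype.ext ha
  rw [this, map_zero]
  rfl

theorem cf_le (p : MvPolynomial (Fin 3) ℤ) (n m H : ℕ) (hH : ∀ μ, |coeff μ p| ≤ (H : ℤ)) (k : ℕ) :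
    |(cf p n m).coeff k| ≤ (H : ℤ) := by
  rw [cf_coeff]
  split_ifs
  · exact hH _
  · simp

theorem syl_le (f g : Polynomial ℤ) (m n H : ℕ) (hf : ∀ k, |f.coeff k| ≤ (H : ℤ))
    (hg : ∀ k, |g.coeff k| ≤ (H : ℤ)) (i j : Fin (m + n)) :
    |Polynomial.sylvester f g m n i j| ≤ (H : ℤ) := by
  refine Fin.addCases (fun j₁ => ?_) (fun j₁ => ?_) j
  · simp only [Polynomial.sylvester, Matrix.of_apply, Fin.addCases_left]
    split_ifs
    · exact hg _
    · simp
  · simp only [Polynomial.sylvester, Matrix.of_apply, Fin.addCases_right]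
    split_ifs
    · exact hf _
    · simp

theorem res_le (d H : ℕ) (hd : 2 ≤ d) (hH1 : 1 ≤ H) (p : MvPolynomial (Fin 3) ℤ)
    (hH : ∀ μ, |coeff μ p| ≤ (H : ℤ)) :
    |Polynomial.resultant (cf p d 0) (cf p (d - 1) 1) d (d - 1)| ≤
      (((2 * d * H) ^ (4 * d) : ℕ) : ℤ) := by
  have h := Matrix.det_le (abv := AbsoluteValue.abs) (x := (H : ℤ))
    (A := Polynomial.sylvester (cf p d 0) (cf p (d - 1) 1) d (d - 1))
    (fun i j => syl_le _ _ _ _ H (cf_le p d 0 H hH) (cf_le p (d - 1) 1 H hH) i j)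
  rw [Fintype.card_fin] at h
  refine le_trans h ?_
  have h1 : (d + (d - 1)).factorial ≤ (2 * d) ^ (d + (d - 1)) :=
    le_trans (Nat.factorial_le_pow _) (Nat.pow_le_pow_left (by omega) _)
  have h2 : (d + (d - 1)).factorial * H ^ (d + (d - 1)) ≤ (2 * d * H) ^ (4 * d) := by
    calc (d + (d - 1)).factorial * H ^ (d + (d - 1))
        ≤ (2 * d) ^ (d + (d - 1)) * H ^ (d + (d - 1)) := Nat.mul_le_mul_right _ h1
      _ = (2 * d * H) ^ (d + (d - 1)) := by rw [mul_pow (2 * d) H]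
      _ ≤ (2 * d * H) ^ (4 * d) := by
          apply Nat.pow_le_pow_right _ (by omega)
          have : 0 < d * H := Nat.mul_pos (by omega) (by omega)
          nlinarith
  rw [nsmul_eq_mul]
  exact_mod_cast h2

open Polynomial in
theorem bez (d : ℕ) (p : MvPolynomial (Fin 3) ℤ) (hd : 2 ≤ d) (k : ℕ) (hk : k < d + (d - 1)) :
    ∃ u v : ℤ[X], u.natDegree ≤ d - 2 ∧ v.natDegree ≤ d - 1 ∧
      cf p d 0 * u + cf p (d - 1) 1 * v =
        Polynomial.C (Polynomial.resultant (cf p d 0) (cf p (d - 1) 1) d (d - 1)) * Polynomial.X ^ k := by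
  have hmem : (Polynomial.X ^ k : ℤ[X]) ∈ degreeLT ℤ (d + (d - 1)) := by
    rw [Polynomial.mem_degreeLT, Polynomial.degree_X_pow]
    exact_mod_cast hk
  obtain ⟨x, hx⟩ : ∃ x, x = adjSylvester (m := d) (n := d - 1) (cf p d 0) (cf p (d - 1) 1)
    ⟨Polynomial.X ^ k, hmem⟩ := ⟨_, rfl⟩
  have h := congrArg (fun φ => φ (⟨Polynomial.X ^ k, hmem⟩ : ℤ[X]_(d + (d - 1))))
    (sylveserMap_comp_adjSylvester (cf p d 0) (cf p (d - 1) 1) (cf_deg p d 0) (cf_deg p (d - 1) 1))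
  simp only [LinearMap.comp_apply] at h
  rw [← hx] at h
  have h3' := congrArg (fun z : ℤ[X]_(d + (d - 1)) => (z : ℤ[X])) h
  simp only [sylvesterMap_apply_coe, LinearMap.smul_apply, LinearMap.id_apply,
    SetLike.val_smul] at h3'
  refine ⟨((x.2 : ℤ[X]_(d - 1)) : ℤ[X]), ((x.1 : ℤ[X]_d) : ℤ[X]), ?_, ?_, ?_⟩
  · have := Polynomial.mem_degreeLT.1 x.2.2
    by_cases h0 : ((x.2 : ℤ[X]_(d - 1)) : ℤ[X]) = 0
    · rw [h0]; simp
    · have := (Polynomial.natDegree_lt_iff_degree_lt h0).2 this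
      omega
  · have := Polynomial.mem_degreeLT.1 x.1.2
    by_cases h0 : ((x.1 : ℤ[X]_d) : ℤ[X]) = 0
    · rw [h0]; simp
    · have := (Polynomial.natDegree_lt_iff_degree_lt h0).2 this
      omega
  · rw [h3', Polynomial.smul_eq_C_mul]

theorem dvd_pow (d : ℕ) (p : MvPolynomial (Fin 3) ℤ) (hp : p.IsHomogeneous d) (hd : 2 ≤ d)
    (h2 : degreeOf 2 p = 1) (k : ℕ) (hk : k ≤ 2 * d - 2) (ζ : V3) (hζ : eval ζ p = 0) :
    eval ![ζ 0, ζ 1] ((cf p (d - 1) 1).homogenize (d - 1)) ∣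
      Polynomial.resultant (cf p d 0) (cf p (d - 1) 1) d (d - 1) *
        (ζ 0 ^ k * ζ 1 ^ (2 * d - 2 - k)) := by
  obtain ⟨u, v, hu, hv, h⟩ := bez d p hd k (by omega)
  have hdec := decomp d p hp (by omega) (le_of_eq h2)
  rw [hdec, map_add, map_mul, h3_eval, h3_eval, eval_X] at hζ
  have e1 : (cf p d 0 * u).homogenize (2 * d - 2) =
      (cf p d 0).homogenize d * u.homogenize (d - 2) := by
    rw [← Polynomial.homogenize_mul _ _ (cf_deg p d 0) hu]
    congr 1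
    omega
  have e2 : (cf p (d - 1) 1 * v).homogenize (2 * d - 2) =
      (cf p (d - 1) 1).homogenize (d - 1) * v.homogenize (d - 1) := by
    rw [← Polynomial.homogenize_mul _ _ (cf_deg p (d - 1) 1) hv]
    congr 1
    omega
  have e3 := congrArg (fun q => eval ![ζ 0, ζ 1] (Polynomial.homogenize q (2 * d - 2))) h
  simp only [Polynomial.homogenize_add, e1, e2, Polynomial.homogenize_C_mul,
    Polynomial.homogenize_X_pow hk, map_add, map_mul, map_pow, eval_X, eval_C,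
    Matrix.cons_val_zero, Matrix.cons_val_one] at e3
  rw [← e3]
  have e4 : eval ![ζ 0, ζ 1] ((cf p d 0).homogenize d) =
      - (ζ 2 * eval ![ζ 0, ζ 1] ((cf p (d - 1) 1).homogenize (d - 1))) := by
    linarith
  rw [e4]
  refine ⟨- ζ 2 * eval ![ζ 0, ζ 1] (u.homogenize (d - 2)) +
    eval ![ζ 0, ζ 1] (v.homogenize (d - 1)), ?_⟩
  ring

end Res22

open MvPolynomial Res22 in
/-- RES. The resultant. -/
theorem RES : RES_stmt := by
  intro H d p hH1 hirr hp hd h2 hH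
  refine ⟨Polynomial.resultant (cf p d 0) (cf p (d - 1) 1) d (d - 1),
    res_ne d p hirr hp hd h2, res_le d H hd hH1 p hH, ?_⟩
  intro ζ hcop hζ
  have hdec := decomp d p hp (by omega) (le_of_eq h2)
  have hpd : pderiv 2 p = h3 (cf p (d - 1) 1) (d - 1) := by
    nth_rewrite 1 [hdec]
    rw [map_add, pderiv_h3, Derivation.leibniz, pderiv_h3, pderiv_X_self]
    simp
  have hev : eval ![ζ 0, ζ 1, 0] (pderiv 2 p) =
      eval ![ζ 0, ζ 1] ((cf p (d - 1) 1).homogenize (d - 1)) := by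
    rw [hpd, h3_eval]
    rfl
  rw [hev]
  have d1 := dvd_pow d p hp hd h2 0 (by omega) ζ hζ
  have d2 := dvd_pow d p hp hd h2 (2 * d - 2) le_rfl ζ hζ
  simp only [pow_zero, one_mul, Nat.sub_zero, Nat.sub_self, mul_one] at d1 d2
  have hdvd : eval ![ζ 0, ζ 1] ((cf p (d - 1) 1).homogenize (d - 1)) ∣
      Polynomial.resultant (cf p d 0) (cf p (d - 1) 1) d (d - 1) := by
    obtain ⟨s, t, hst⟩ := (hcop.pow (m := 2 * d - 2) (n := 2 * d - 2))
    have := dvd_add (Dvd.dvd.mul_left d2 s) (Dvd.dvd.mul_left d1 t)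
    have e : s * (Polynomial.resultant (cf p d 0) (cf p (d - 1) 1) d (d - 1) * ζ 0 ^ (2 * d - 2)) +
        t * (Polynomial.resultant (cf p d 0) (cf p (d - 1) 1) d (d - 1) * ζ 1 ^ (2 * d - 2)) =
        Polynomial.resultant (cf p d 0) (cf p (d - 1) 1) d (d - 1) := by
      linear_combination (Polynomial.resultant (cf p d 0) (cf p (d - 1) 1) d (d - 1)) * hst
    rwa [e] at this
  refine ⟨fun h0 => ?_, hdvd⟩
  rw [h0, zero_dvd_iff] at hdvd
  exact res_ne d p hirr hp hd h2 hdvd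

end Pool.Agent.WB
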